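import Pool.Agent.Helper17.OD.GoalsCV

/-!
# CL2: collapsed mice, pairs
-/

namespace Pool.Agent.Helper17.OD.PkCL2

open Set

/-- The closure without top functions grows with the level. -/
theorem tcl_empty {a a' : O} {Q Q' : Code → T → Prop} {A A' : Set O} (haa : a ≤ a')
    (hQ : ∀ φ e, ¬ Q φ e) (hA : A ⊆ A') {t : T} (h : TCl a Q A t) : TCl a' Q' A' t := by
  induction h with
  | nat n => exact TCl.nat n
  | base hx hxa => exact TCl.base (hA hx) (hxa.trans_le haa)
  | pr _ _ h1 h2 => exact TCl.pr h1 h2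
  | fst _ h => exact TCl.fst h
  | snd _ h => exact TCl.snd h
  | inner _ hb _ he hw h1 h2 => exact TCl.inner h1 (hb.trans_le haa) h2 he hw
  | top _ hq _ _ => exact (hQ _ _ hq).elim

theorem map_map_eq {s f' f : O → O} {A : Set O} (h : ∀ x ∈ A, f' (s x) = f x) {t : T}
    (ht : t ∈ D A) : (t.map s).map f' = t.map f := by
  induction t with
  | nat n => rfl
  | ord x => simp only [Tr.map, h x (ord_mem.1 ht)]
  | pr a b ha hb => simp only [Tr.map, ha (pr_mem.1 ht).1, hb (pr_mem.1 ht).2]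

/-- The properties of the uncollapsing maps. -/
structure Em (M : T) (a : O) (f : O → O) : Prop where
  lt : ∀ x < a, f x < mA M
  tru : ∀ b < a, ∀ e ∈ D (Iio b), ∀ c : Code, Tru b c e ↔ Tru (f b) c (e.map f)
  isw : ∀ b < a, ∀ e ∈ D (Iio b), ∀ x ∈ D (Iio a), ∀ φ : Code,
    IsW b φ e x ↔ IsW (f b) φ (e.map f) (x.map f)
  top : ∀ c : Code, (Tr.ofCode c = (mQ M).fst ∨ (Tr.ofCode c).lt (mQ M).fst) →
    ∀ e ∈ D (Iio a), (Tru a c e ↔ Tru (mA M) c (e.map f))
  wit : ∀ (ψ : Code), ∀ e ∈ D (Iio a), ∀ x ∈ D (Iio a), av (mQ M) ψ (e.map f) →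
    (IsW a ψ e x ↔ IsW (mA M) ψ (e.map f) (x.map f))

theorem em (hCON1 : G_CON1) (hCON2 : G_CON2) (hCON3 : G_CON3) (hCLA : G_CLA)
    (hMAPT : G_MAPT.{2, 2}) {M : T} {a : O} {f : O → O} (hM : ∃ φ u : T, mQ M = .pr φ u)
    (hf : StrictMonoOn f (Iio a)) (hr : f '' Iio a = HullM M) : Em M a f := by
  obtain ⟨hT, hHa, -⟩ := hCLA (mA M) (av (mQ M)) (Iio (mD M) ∪ (mP M).leaves)
  obtain ⟨-, -, -, -, -, -, -, -, -, hmap⟩ := hMAPT O O f (Iio a) hf
  have hlt : ∀ x < a, f x < mA M := by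
    intro x hx
    have h1 : f x ∈ HullM M := by
      rw [← hr]
      exact ⟨x, hx, rfl⟩
    exact hHa h1
  have hcl : ∀ t : T, TCl (mA M) (av (mQ M)) (Iio (mD M) ∪ (mP M).leaves) t ↔
      t ∈ D (f '' Iio a) := by
    intro t
    rw [hr]
    exact hT t
  have hin : ∀ b < a, ∀ e ∈ D (Iio b), ∀ (φ : Code) (y : T), IsW (f b) φ (e.map f) y →
      y ∈ D (f '' Iio a) := by
    intro b hb e he φ y hy
    rw [← hcl]
    refine TCl.inner (b := f b) ?_ (hlt b hb) ?_ ?_ hy
    · rw [hcl]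
      exact ord_mem.2 ⟨b, hb, rfl⟩
    · rw [hcl]
      exact hmap _ _ (D_mono (Iio_subset_Iio (le_of_lt hb)) he)
    · refine D_mono ?_ (hmap _ _ he)
      rintro _ ⟨x, hx, rfl⟩
      exact hf (lt_trans hx hb) hb hx
  have htop : ∀ e ∈ D (Iio a), ∀ (ψ : Code) (y : T), av (mQ M) ψ (e.map f) →
      IsW (mA M) ψ (e.map f) y → y ∈ D (f '' Iio a) := by
    intro e he ψ y hav hy
    rw [← hcl]
    refine TCl.top ?_ hav hy
    rw [hcl]
    exact hmap _ _ he
  obtain ⟨k1, k2⟩ := hCON1 a f hf hin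
  refine ⟨hlt, k1, k2, ?_, ?_⟩
  · refine hCON2 a (mA M) f (mQ M).fst hf hlt hin ?_
    intro e he ψ y hψ hy
    refine htop e he ψ y ?_ hy
    obtain ⟨φ, u, hQ⟩ := hM
    rw [hQ] at hψ ⊢
    exact Or.inl hψ
  · exact hCON3 a (mA M) f (mQ M) hf hlt hin htop

theorem av_empty (hHLE : G_HLE.{2}) (ψ : Code) (e : T) :
    ¬ av (.pr (.nat 0) (.nat 0)) ψ e := by
  obtain ⟨-, -, -, -, h, -, -⟩ := hHLE O
  rintro (h1 | ⟨-, h1⟩)
  · exact h _ h1
  · exact h _ h1

theorem av_mono (hLTO : G_LTO.{2}) {M M' : T} {φ u φ' u' : T} (hM : mQ M = .pr φ u)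
    (hM' : mQ M' = .pr φ' u') (h : mle M M') {ψ : Code} {e : T} (hav : av (mQ M) ψ e) :
    av (mQ M') ψ e := by
  obtain ⟨-, htr, htri⟩ := hLTO O
  rw [hM] at hav
  rw [hM']
  have h2 := h.2.1
  rw [hM, hM'] at h2
  rcases h2 with h2 | ⟨h2, h3⟩
  · rcases hav with h4 | ⟨h4, -⟩
    · exact Or.inl (htr _ _ _ h4 h2)
    · refine Or.inl ?_
      rw [h4]
      exact h2
  · have h2' : φ = φ' := h2
    rcases hav with h4 | ⟨h4, h5⟩
    · refine Or.inl ?_
      rw [← h2']
      exact h4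
    · refine Or.inr ⟨h4.trans h2', ?_⟩
      rcases htri u u' with h6 | h6 | h6
      · exact htr _ _ _ h5 h6
      · rw [← h6]
        exact h5
      · exact (h3 h6).elim

theorem mle_trans (hLTO : G_LTO.{2}) {M M' M'' : T} (h : mle M M') (h' : mle M' M'') :
    mle M M'' := by
  obtain ⟨-, htr, htri⟩ := hLTO O
  refine ⟨h.1.trans h'.1, ?_, h.2.2.trans h'.2.2⟩
  rcases h.2.1 with h1 | ⟨h1, h2⟩
  · rcases h'.2.1 with h3 | ⟨h3, -⟩
    · exact Or.inl (htr _ _ _ h1 h3)
    · refine Or.inl ?_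
      rw [← h3]
      exact h1
  · rcases h'.2.1 with h3 | ⟨h3, h4⟩
    · refine Or.inl ?_
      rw [h1]
      exact h3
    · refine Or.inr ⟨h1.trans h3, ?_⟩
      intro h5
      rcases htri (mQ M').snd (mQ M).snd with h6 | h6 | h6
      · exact h2 h6
      · rw [← h6] at h5
        exact h4 h5
      · exact h4 (htr _ _ _ h5 h6)

theorem thm (hCON1 : G_CON1) (hCON2 : G_CON2) (hCON3 : G_CON3) (hCLA : G_CLA) (hCLB : G_CLB)
    (hPJC : G_PJC) (hMAPT : G_MAPT.{2, 2}) (hLTO : G_LTO.{2}) (hHLE : G_HLE.{2}) : G_CL2 := by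
  intro k β I p₀ d₀ hS f m hC
  obtain ⟨hirr, htr, htri⟩ := hLTO O
  have key : ∀ M ∈ I, ∀ M' ∈ I, mle M M' →
      (∀ t t' : T, PJ (m M) (m M') t t' ↔ t ∈ D (Iio (mA (m M))) ∧ t' ∈ D (Iio (mA (m M'))) ∧
        t.map (f M) = t'.map (f M')) ∧ Im (m M) (m M') := by
    intro M hM M' hM' hle
    obtain ⟨α, φ, u, d, hMm, hp, hu, hd0, hdβ, hda⟩ := hS.mice M hM
    obtain ⟨α', φ', u', d', hMm', hp', hu', hd0', hdβ', hda'⟩ := hS.mice M' hM'
    have hQ : mQ M = .pr (Tr.ofCode φ) u := by rw [hMm]; rfl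
    have hQ' : mQ M' = .pr (Tr.ofCode φ') u' := by rw [hMm']; rfl
    have hPM : mP M = p₀ := by rw [hMm]; rfl
    have hPM' : mP M' = p₀ := by rw [hMm']; rfl
    obtain ⟨a, χ, v, dd, q, hm, hmf, hmd, hmda, hmv, hmq, hmβ, hmp⟩ := hC.ms M hM
    obtain ⟨a', χ', v', dd', q', hm', hmf', hmd', hmda', hmv', hmq', hmβ', hmp'⟩ := hC.ms M' hM'
    have hA : mA (m M) = a := by rw [hm]; rfl
    have hA' : mA (m M') = a' := by rw [hm']; rfl
    have hf := hC.mono M hM
    have hf' := hC.mono M' hM'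
    have hr := hC.rng M hM
    have hr' := hC.rng M' hM'
    have hcut := hC.cut M hM
    have hcut' := hC.cut M' hM'
    have hid := hC.idd M hM
    have hid' := hC.idd M' hM'
    rw [hA] at hf hr hcut
    rw [hA'] at hf' hr' hcut'
    have hE := em hCON1 hCON2 hCON3 hCLA hMAPT ⟨_, _, hQ⟩ hf hr
    have hE' := em hCON1 hCON2 hCON3 hCLA hMAPT ⟨_, _, hQ'⟩ hf' hr'
    -- the two cases
    have hcase : mA M = mA M' ∨ mQ M = .pr (.nat 0) (.nat 0) := hS.lev M hM M' hM' hle
    have hleaf : (Iio (mD M) ∪ (mP M).leaves) ⊆ (Iio (mD M') ∪ (mP M').leaves) := by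
      rw [hPM, hPM']
      exact union_subset_union_left _ (Iio_subset_Iio hle.2.2)
    have hhull : HullM M ⊆ HullM M' := by
      intro x hx
      rcases hcase with hc | hc
      · have h1 := hCLB (mA M) (av (mQ M)) (av (mQ M')) (Iio (mD M) ∪ (mP M).leaves)
          (Iio (mD M') ∪ (mP M').leaves) (fun ψ e _ h => av_mono hLTO hQ hQ' hle h)
          (fun y hy hya => TCl.base (hleaf hy) hya) (.ord x) hx
        rw [hc] at h1
        exact h1
      · refine tcl_empty hle.1 ?_ hleaf hx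
        intro ψ e
        rw [hc]
        exact av_empty hHLE ψ e
    have hex : ∀ x < a, ∃ y < a', f M' y = f M x := by
      intro x hx
      have h1 : f M x ∈ f M' '' Iio a' := by
        rw [hr']
        apply hhull
        rw [← hr]
        exact ⟨x, hx, rfl⟩
      obtain ⟨y, hy, h2⟩ := h1
      exact ⟨y, hy, h2⟩
    classical
    obtain ⟨s, hs⟩ : ∃ s : O → O, ∀ x < a, s x < a' ∧ f M' (s x) = f M x := by
      refine ⟨fun x => if h : x < a then (hex x h).choose else 0, fun x hx => ?_⟩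
      dsimp only
      rw [dif_pos hx]
      exact (hex x hx).choose_spec
    have hsm : StrictMonoOn s (Iio a) := by
      intro x hx y hy hxy
      by_contra hcon
      push Not at hcon
      have h1 := hf hx hy hxy
      rw [← (hs x hx).2, ← (hs y hy).2] at h1
      exact absurd (hf'.monotoneOn (hs y hy).1 (hs x hx).1 hcon) (not_le.2 h1)
    obtain ⟨-, -, sinj, slt, sord, -, -, -, -, smap⟩ := hMAPT O O s (Iio a) hsm
    obtain ⟨-, -, finj', -, -, -, -, -, -, -⟩ := hMAPT O O (f M') (Iio a') hf'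
    have hmm : ∀ {t : T}, t ∈ D (Iio a) → (t.map s).map (f M') = t.map (f M) :=
      fun ht => map_map_eq (fun x hx => (hs x hx).2) ht
    have hDs : ∀ {t : T}, t ∈ D (Iio a) → t.map s ∈ D (Iio a') := by
      intro t ht
      refine D_mono ?_ (smap _ _ ht)
      rintro _ ⟨x, hx, rfl⟩
      exact (hs x hx).1
    have hDsb : ∀ {b : O} {t : T}, b < a → t ∈ D (Iio b) → t.map s ∈ D (Iio (s b)) := by
      intro b t hb ht
      refine D_mono ?_ (smap _ _ ht)
      rintro _ ⟨x, hx, rfl⟩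
      exact hsm (lt_trans hx hb) hb hx
    have hDb : ∀ {b : O} {t : T}, b < a → t ∈ D (Iio b) → t ∈ D (Iio a) :=
      fun hb ht => D_mono (Iio_subset_Iio (le_of_lt hb)) ht
    have pInner : ∀ b < a, ∀ e ∈ D (Iio b), ∀ x ∈ D (Iio a), ∀ ψ : Code,
        (IsW b ψ e x ↔ IsW (s b) ψ (e.map s) (x.map s)) := by
      intro b hb e he x hx ψ
      rw [hE.isw b hb e he x hx ψ, hE'.isw (s b) (hs b hb).1 (e.map s) (hDsb hb he) (x.map s)
        (hDs hx) ψ, hmm (hDb hb he), hmm hx, (hs b hb).2]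
    have pTru : ∀ b < a, ∀ e ∈ D (Iio b), ∀ c : Code, (Tru b c e ↔ Tru (s b) c (e.map s)) := by
      intro b hb e he c
      rw [hE.tru b hb e he c, hE'.tru (s b) (hs b hb).1 (e.map s) (hDsb hb he) c,
        hmm (hDb hb he), (hs b hb).2]
    have pTop : ∀ e ∈ D (Iio a), ∀ x ∈ D (Iio a), ∀ ψ : Code, av (mQ (m M)) ψ e →
        (av (mQ (m M')) ψ (e.map s) ∧ (IsW a ψ e x ↔ IsW a' ψ (e.map s) (x.map s))) := by
      intro e he x hx ψ hav
      have h1 := (hcut ψ e he).2 hav
      rcases hcase with hc | hc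
      · have h2 := av_mono hLTO hQ hQ' hle h1
        refine ⟨?_, ?_⟩
        · rw [← hcut' ψ (e.map s) (hDs he), hmm he]
          exact h2
        · rw [hE.wit ψ e he x hx h1, hE'.wit ψ (e.map s) (hDs he) (x.map s) (hDs hx)
            (by rw [hmm he]; exact h2), hmm he, hmm hx, hc]
      · rw [hc] at h1
        exact (av_empty hHLE ψ _ h1).elim
    have pTT : ∀ c : Code, (Tr.ofCode c = (mQ (m M)).fst ∨ (Tr.ofCode c).lt (mQ (m M)).fst) →
        ∀ e ∈ D (Iio a), (Tru a c e ↔ Tru a' c (e.map s)) := by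
      intro c hc e he
      have hfst : (mQ (m M)).fst = (mQ M).fst := by
        rw [hmf, hm]
        rfl
      rw [hfst] at hc
      rcases hcase with hcc | hcc
      · have hc' : Tr.ofCode c = (mQ M').fst ∨ (Tr.ofCode c).lt (mQ M').fst := by
          rcases hle.2.1 with h1 | ⟨h1, -⟩
          · rcases hc with h2 | h2
            · right
              rw [h2]
              exact h1
            · exact Or.inr (htr _ _ _ h2 h1)
          · rw [← h1]
            exact hc
        rw [hE.top c hc e he, hE'.top c hc' (e.map s) (hDs he), hmm he, hcc]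
      · rw [hcc] at hc
        have hc0 : (Tr.ofCode c : T) = .nat 0 := by
          rcases hc with h1 | h1
          · exact h1
          · exact ((hHLE O).2.2.2.2.1 _ h1).elim
        have hc1 : c = .nat 0 := by
          cases c with
          | nat n =>
            have h2 : (Tr.nat n : T) = .nat 0 := hc0
            injection h2 with h2
            rw [h2]
          | ord x => exact x.elim
          | pr x y =>
            have h2 : (Tr.pr (Tr.ofCode x) (Tr.ofCode y) : T) = .nat 0 := hc0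
            exact absurd h2 (by simp)
        subst hc1
        rw [tru_eq, tru_eq]
        simp [stp]
    have hPJ : ∀ t t' : T, PJ (m M) (m M') t t' ↔ t ∈ D (Iio (mA (m M))) ∧ t' = t.map s := by
      refine hPJC (m M) (m M') s ?_ ?_ ?_ ?_ (hC.snd M hM) ?_ ?_ ?_ ?_ ?_ ?_
      · rw [hm]; trivial
      · rw [hm']; trivial
      · rw [hm]; exact hmda
      · rw [hm]; exact hmq
      · rw [hA]; exact hsm
      · rw [hA, hA']; exact fun x hx => (hs x hx).1
      · intro x hx
        have h1 : mD (m M) = mD M := by rw [← hmd, hm]; rfl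
        rw [h1] at hx
        have hxa : x < a := lt_of_lt_of_le hx (by rw [← hmd]; exact hmda)
        have hxa' : x < a' := lt_of_lt_of_le (lt_of_lt_of_le hx hle.2.2) (by
          rw [← hmd']; exact hmda')
        have h2 : f M' (s x) = f M' x := by
          rw [(hs x hxa).2, hid x hx, hid' x (lt_of_lt_of_le hx hle.2.2)]
        exact hf'.injOn (hs x hxa).1 hxa' h2
      · have h1 : mP (m M) = q := by rw [hm]; rfl
        have h2 : mP (m M') = q' := by rw [hm']; rfl
        rw [h1, h2]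
        refine finj' _ (hDs hmq) _ hmq' ?_
        rw [hmm hmq, hmp, hmp', hPM, hPM']
      · rw [hA]
        exact pInner
      · rw [hA, hA']
        exact pTop
    have hchar : ∀ t t' : T, PJ (m M) (m M') t t' ↔ t ∈ D (Iio (mA (m M))) ∧
        t' ∈ D (Iio (mA (m M'))) ∧ t.map (f M) = t'.map (f M') := by
      intro t t'
      rw [hPJ, hA, hA']
      constructor
      · rintro ⟨h1, rfl⟩
        exact ⟨h1, hDs h1, (hmm h1).symm⟩
      · rintro ⟨h1, h2, h3⟩
        refine ⟨h1, finj' _ h2 _ (hDs h1) ?_⟩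
        rw [hmm h1]
        exact h3.symm
    refine ⟨hchar, ?_, ?_, ?_, ?_, ?_, ?_, ?_, ?_, ?_, ?_, ?_⟩
    · intro t t' h
      exact ⟨((hchar t t').1 h).1, ((hchar t t').1 h).2.1⟩
    · intro t ht
      exact ⟨t.map s, (hPJ _ _).2 ⟨ht, rfl⟩⟩
    · intro t t' t'' h h'
      rw [((hPJ _ _).1 h).2, ((hPJ _ _).1 h').2]
    · intro t t' h ht
      rw [((hPJ _ _).1 h).2]
      exact (sord t).2 ht
    · intro t t' v v' h h' hlt
      rw [hPJ, hA] at h h'
      rw [h.2, h'.2]
      exact (slt _ h.1 _ h'.1).2 hlt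
    · intro b b' e e' h h' he
      rw [hPJ, hA] at h h'
      have hb : b < a := ord_mem.1 h.1
      have h2 : b' = s b := by
        have h3 := h.2
        simp only [Tr.map] at h3
        injection h3
      rw [h2, h'.2]
      exact hDsb hb he
    · intro b b' e e' c h h' he
      rw [hPJ, hA] at h h'
      have hb : b < a := ord_mem.1 h.1
      have h2 : b' = s b := by
        have h3 := h.2
        simp only [Tr.map] at h3
        injection h3
      rw [h2, h'.2]
      exact pTru b hb e he c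
    · intro b b' e e' x x' ψ h h' he hx hw
      rw [hPJ, hA] at h h' hx
      have hb : b < a := ord_mem.1 h.1
      have h2 : b' = s b := by
        have h3 := h.2
        simp only [Tr.map] at h3
        injection h3
      rw [h2, h'.2, hx.2]
      exact (pInner b hb e he x hx.1 ψ).1 hw
    · intro e e' c h hc
      rw [hPJ, hA] at h
      rw [hA, hA', h.2]
      exact pTT c hc e h.1
    · intro e e' ψ h hav
      rw [hPJ, hA] at h
      rw [h.2]
      exact (pTop e h.1 (.nat 0) (nat_mem _ _) ψ hav).1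
    · intro e e' x x' ψ h hx hav hw
      rw [hPJ, hA] at h hx
      rw [hA] at hw
      rw [hA', h.2, hx.2]
      exact ((pTop e h.1 x hx.1 ψ hav).2).1 hw
  refine ⟨key, ?_⟩
  intro M hM M' hM' M'' hM'' h h' t t' t'' ht ht'
  rw [(key M hM M' hM' h).1] at ht
  rw [(key M' hM' M'' hM'' h').1] at ht'
  rw [(key M hM M'' hM'' (mle_trans hLTO h h')).1]
  exact ⟨ht.1, ht'.2.1, ht.2.2.trans ht'.2.2⟩

end Pool.Agent.Helper17.OD.PkCL2
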