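import Pool.Agent.Helper17.OD.GoalsFP

/-!
# PIM: the forcing is in the ground model
-/

namespace Pool.Agent.Helper17.OD.PkPIM

open Set

/-- Membership in the coded set. -/
def InDec (x y : T) : Prop := x ∈ dec y

/-- The order, with the graph `G` of the shorter lengths. -/
def LeT (k : O) (x q p : T) (G : Set T) : Prop :=
  ∀ i ∈ D (Iio k), (i : T).IsOrd → i.llt x →
    (∀ a ∈ D (Iio k), LnT p i a → LnT q i a) ∧
    ∀ a ∈ D (Iio k), LnT p i a → ∀ r ∈ D (Iio k), Tr.pr i (.pr (.nat 0) r) ∈ G →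
      Tr.pr i (.pr (.nat 1) (.pr r q)) ∈ G →
      (InDec (.pr i (.pr (.nat 1) (.pr a r))) q ↔ InDec (.pr i (.pr (.nat 1) (.pr a r))) p)

/-- The shape of a condition. -/
def ShT (k κ : O) (x p : T) (G : Set T) : Prop :=
  ∀ z ∈ D (Iio k), InDec z p → ∃ i ∈ D (Iio k), (i : T).IsOrd ∧ i.llt x ∧ i.llt (.ord κ) ∧
    ∃ a ∈ D (Iio k), LnT p i a ∧ (z = .pr i (.pr (.nat 0) a) ∨
      ∃ s ∈ D (Iio k), Tr.pr i (.pr (.nat 0) s) ∈ G ∧ z = .pr i (.pr (.nat 1) (.pr a s)))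

/-- The lengths of a condition. -/
def LeE (k κ : O) (Eta : Set T) (x p : T) : Prop :=
  ∀ i ∈ D (Iio k), (i : T).IsOrd → i.llt x → i.llt (.ord κ) →
    ∃ y ∈ D (Iio k), ∃ a ∈ D (Iio k), (y : T).IsOrd ∧ Tr.pr i a ∈ Eta ∧ y.llt a ∧ ¬ LnT p i y

/-- The names are regular open. -/
def RoT (k κ : O) (x p : T) (G : Set T) : Prop :=
  ∀ i ∈ D (Iio k), (i : T).IsOrd → i.llt x → i.llt (.ord κ) → ∀ a ∈ D (Iio k), LnT p i a →
    (∀ s ∈ D (Iio k), InDec (.pr i (.pr (.nat 1) (.pr a s))) p → Tr.pr i (.pr (.nat 0) s) ∈ G) ∧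
    (∀ r ∈ D (Iio k), InDec (.pr i (.pr (.nat 1) (.pr a r))) p → ∀ s ∈ D (Iio k),
      Tr.pr i (.pr (.nat 0) s) ∈ G → Tr.pr i (.pr (.nat 1) (.pr s r)) ∈ G →
      InDec (.pr i (.pr (.nat 1) (.pr a s))) p) ∧
    ∀ r ∈ D (Iio k), Tr.pr i (.pr (.nat 0) r) ∈ G → (∀ s ∈ D (Iio k),
      Tr.pr i (.pr (.nat 0) s) ∈ G → Tr.pr i (.pr (.nat 1) (.pr s r)) ∈ G →
      ∃ u ∈ D (Iio k), Tr.pr i (.pr (.nat 0) u) ∈ G ∧ Tr.pr i (.pr (.nat 1) (.pr u s)) ∈ G ∧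
        InDec (.pr i (.pr (.nat 1) (.pr a u))) p) →
      InDec (.pr i (.pr (.nat 1) (.pr a r))) p

/-- Thinness. -/
def ThT (k κ w : O) (M : Set (Set T)) (x p : T) (G : Set T) : Prop :=
  ∀ i ∈ D (Iio k), (i : T).IsOrd → i.llt x → i.llt (.ord κ) →
    ¬ ∃ Z ∈ M, (∀ z ∈ D (Iio k), z ∈ Z → ∃ b ∈ D (Iio k), ∃ c ∈ D (Iio k), (b : T).IsOrd ∧
        b.llt (.ord w) ∧ (c : T).IsOrd ∧ z = .pr b c) ∧
      (∀ b ∈ D (Iio k), ∀ c ∈ D (Iio k), ∀ b' ∈ D (Iio k), ∀ c' ∈ D (Iio k), Tr.pr b c ∈ Z →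
        Tr.pr b' c' ∈ Z → (b.llt b' → c.llt c') ∧ (b = b' → c = c')) ∧
      ∃ r ∈ D (Iio k), Tr.pr i (.pr (.nat 0) r) ∈ G ∧
        ∀ b ∈ D (Iio k), (b : T).IsOrd → b.llt (.ord w) → ∃ c ∈ D (Iio k), Tr.pr b c ∈ Z ∧
          LnT p i c ∧ InDec (.pr i (.pr (.nat 1) (.pr c r))) p

/-- One step of the recursion. -/
def Phi (k κ w : O) (M : Set (Set T)) (Eta Dk : Set T) (x y : T) (G : Set T) : Prop :=
  x.IsOrd ∧ ¬ (Tr.ord κ).llt x ∧
    ((∃ p ∈ D (Iio k), y = .pr (.nat 0) p ∧ Canon p ∧ p ∈ Dk ∧ ShT k κ x p G ∧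
      LeE k κ Eta x p ∧ RoT k κ x p G ∧ ThT k κ w M x p G) ∨
    ∃ q ∈ D (Iio k), ∃ p ∈ D (Iio k), y = .pr (.nat 1) (.pr q p) ∧ q ∈ Dk ∧ p ∈ Dk ∧
      LeT k x q p G)

section SDs

variable {k : O} {M : Set (Set T)} [SOM k M M]

theorem sd_Phi {κ w : O} {Eta Dk : Set T} (hκ : κ < k) (hw : w < k) (hE : Eta ∈ M) (hDk : Dk ∈ M)
    (hLn : SD k M M (fun e _ => LnT e.fst e.snd.fst e.snd.snd))
    (hD : SD k M M (fun e _ => InDec e.fst e.snd)) (hC : SD k M M (fun e _ => Canon e)) :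
    SD k M M (fun e σ => Phi k κ w M Eta Dk e.fst e.snd (σ 0)) := by
  unfold Phi LeT ShT LeE RoT ThT
  apply_rules (maxDepth := 3000) [SD.exT, SD.allT, SD.exS, SD.allS, SD.isOrd, SD.llt, SD.mem,
    SD.eq, SD.not, SD.and, SD.or, SD.iff, SD.imp, ST.id, ST.fst, ST.snd, ST.pr, ST.nat, ST.ordc,
    SV.var, SV.par, SD.app3 hLn, SD.app2 hD, SD.app1 hC]

end SDs

theorem ball_ord {k j : O} (hj : j ≤ k) {Q : T → Prop} :
    (∀ i ∈ D (Iio k), (i : T).IsOrd → i.llt (.ord j) → Q i) ↔ ∀ i < j, Q (.ord i) := by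
  constructor
  · intro h i hi
    exact h (.ord i) (ord_mem.2 (lt_of_lt_of_le hi hj)) trivial hi
  · intro h i _ hi2 hi3
    cases i with
    | nat n => exact hi2.elim
    | pr a b => exact hi2.elim
    | ord a => exact h a hi3

theorem ball_ord2 {k j κ : O} (hj : j ≤ k) {Q : T → Prop} :
    (∀ i ∈ D (Iio k), (i : T).IsOrd → i.llt (.ord j) → i.llt (.ord κ) → Q i) ↔
      ∀ i < j, i < κ → Q (.ord i) := by
  constructor
  · intro h i hi hi'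
    exact h (.ord i) (ord_mem.2 (lt_of_lt_of_le hi hj)) trivial hi hi'
  · intro h i _ hi2 hi3 hi4
    cases i with
    | nat n => exact hi2.elim
    | pr a b => exact hi2.elim
    | ord a => exact h a hi3 hi4

theorem lnT_iff {p : T} {i x : O} : LnT p (.ord i) (.ord x) ↔ x < ln p i := by
  constructor
  · rintro ⟨i', x', h1, h2, h3⟩
    cases h1
    cases h2
    exact h3
  · intro h
    exact ⟨i, x, rfl, rfl, h⟩

theorem lnT_ord {p a : T} {i : O} (h : LnT p (.ord i) a) : ∃ x, a = .ord x ∧ x < ln p i := by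
  obtain ⟨i', x', h1, h2, h3⟩ := h
  cases h1
  exact ⟨x', h2, h3⟩

theorem dec_low {k : O} {p z : T} (hp : p ∈ D (Iio k)) (hz : z ∈ dec p) :
    ∃ b < k, z ∈ D (Iio b) ∧ ∀ z' ∈ dec p, z' ∈ D (Iio b) := by
  obtain ⟨b, φ, v, hpb, -, hzb, -⟩ := hz
  refine ⟨b, ?_, hzb, ?_⟩
  · rw [hpb] at hp
    exact ord_mem.1 (pr_mem.1 hp).1
  · rintro z' ⟨b', φ', v', hpb', -, hzb', -⟩
    rw [hpb] at hpb'
    injection hpb' with h1 h2
    injection h1 with h1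
    rw [h1]
    exact hzb'

theorem dec_sub {k : O} {p z : T} (hp : p ∈ D (Iio k)) (hz : z ∈ dec p) : z ∈ D (Iio k) := by
  obtain ⟨b, hb, hzb, -⟩ := dec_low hp hz
  exact D_mono (Iio_subset_Iio hb.le) hzb

theorem ln_lt {k : O} (hk : 0 < k) {p : T} (hp : p ∈ D (Iio k)) (i : O) : ln p i < k := by
  obtain ⟨a, ha, hap⟩ : ∃ a < k, Tr.pr (.ord i) (.pr (.nat 0) (.ord a)) ∉ dec p := by
    by_contra hcon
    push Not at hcon
    obtain ⟨b, hb, -, hz⟩ := dec_low hp (hcon 0 hk)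
    have h1 := hz _ (hcon b hb)
    have h2 := (pr_mem.1 (pr_mem.1 h1).2).2
    exact lt_irrefl b (ord_mem.1 h2)
  exact lt_of_le_of_lt (csInf_le' hap) ha

section main

variable (F : FD)

/-- The sets of the recursion. -/
def FF (x : T) : Set T := {y | ∃ j ≤ F.κ, x = .ord j ∧ ((∃ p ∈ F.P j, y = .pr (.nat 0) p) ∨
  ∃ q ∈ D (Iio F.κ), ∃ p ∈ D (Iio F.κ), F.Le j q p ∧ y = .pr (.nat 1) (.pr q p))}

/-- The smaller arguments. -/
def prd (x : T) : Set T := {y | ∃ i j : O, i < j ∧ j ≤ F.κ ∧ x = .ord j ∧ y = .ord i}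

/-- The graph below `x`. -/
def GG (x : T) : Set T := {p | ∃ x' y' : T, p = .pr x' y' ∧ x' ∈ prd F x ∧ y' ∈ FF F x'}

variable {F}

theorem P_sub (hP : G_PUN) {j : O} {p : T} (hp : p ∈ F.P j) : p ∈ D (Iio F.κ) :=
  (((hP F).2 j p).1 hp).low

theorem mem_G0 {i j : O} (hj : j ≤ F.κ) (hi : i < j) (s : T) :
    Tr.pr (.ord i) (.pr (.nat 0) s) ∈ GG F (.ord j) ↔ s ∈ F.P i := by
  constructor
  · rintro ⟨x', y', h1, -, h3⟩
    injection h1 with h1 h2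
    subst h1
    subst h2
    obtain ⟨i', -, h4, h5⟩ := h3
    injection h4 with h4
    subst h4
    rcases h5 with ⟨p, hp, h6⟩ | ⟨q, -, p, -, -, h6⟩
    · injection h6 with _ h7
      rw [h7]
      exact hp
    · injection h6 with h7 _
      injection h7 with h8
      exact absurd h8 (by norm_num)
  · intro h
    exact ⟨.ord i, .pr (.nat 0) s, rfl, ⟨i, j, hi, hj, rfl, rfl⟩,
      ⟨i, (hi.le.trans hj), rfl, Or.inl ⟨s, h, rfl⟩⟩⟩

theorem mem_G1 {i j : O} (hj : j ≤ F.κ) (hi : i < j) (r s : T) :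
    Tr.pr (.ord i) (.pr (.nat 1) (.pr r s)) ∈ GG F (.ord j) ↔
      r ∈ D (Iio F.κ) ∧ s ∈ D (Iio F.κ) ∧ F.Le i r s := by
  constructor
  · rintro ⟨x', y', h1, -, h3⟩
    injection h1 with h1 h2
    subst h1
    subst h2
    obtain ⟨i', -, h4, h5⟩ := h3
    injection h4 with h4
    subst h4
    rcases h5 with ⟨p, hp, h6⟩ | ⟨q, hq, p, hp, hL, h6⟩
    · injection h6 with h7 _
      injection h7 with h8
      exact absurd h8 (by norm_num)
    · injection h6 with _ h7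
      injection h7 with h8 h9
      rw [h8, h9]
      exact ⟨hq, hp, hL⟩
  · rintro ⟨h1, h2, h3⟩
    exact ⟨.ord i, _, rfl, ⟨i, j, hi, hj, rfl, rfl⟩,
      ⟨i, (hi.le.trans hj), rfl, Or.inr ⟨r, h1, s, h2, h3, rfl⟩⟩⟩

theorem leT_iff (hP : G_PUN) {j : O} (hj : j ≤ F.κ) {q p : T} (hq : q ∈ D (Iio F.κ))
    (hp : p ∈ D (Iio F.κ)) :
    LeT F.γ (.ord j) q p (GG F (.ord j)) ↔ LeS F.P F.Le j q p := by
  have hκ : F.κ ≤ F.γ := F.g.kg.le
  have h0 : 0 < F.γ := lt_of_le_of_lt zero_le F.g.kg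
  have hsub : D (Iio F.κ) ⊆ D (Iio F.γ) := D_mono (Iio_subset_Iio hκ)
  unfold LeT
  rw [ball_ord (hj.trans hκ)]
  unfold LeS
  refine forall_congr' fun i => forall_congr' fun hi => ?_
  constructor
  · rintro ⟨h1, h2⟩
    refine ⟨?_, ?_⟩
    · by_contra hlt
      push Not at hlt
      have h3 := h1 (.ord (ln q i)) (ord_mem.2 (ln_lt h0 (hsub hq) i)) (lnT_iff.2 hlt)
      exact lt_irrefl _ (lnT_iff.1 h3)
    · intro x hx r hr hrq
      exact h2 (.ord x) (ord_mem.2 (hx.trans (ln_lt h0 (hsub hp) i))) (lnT_iff.2 hx) r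
        (hsub (P_sub hP hr)) ((mem_G0 hj hi r).2 hr)
        ((mem_G1 hj hi r q).2 ⟨P_sub hP hr, hq, hrq⟩)
  · rintro ⟨h1, h2⟩
    refine ⟨?_, ?_⟩
    · intro a _ ha
      obtain ⟨x, rfl, hx⟩ := lnT_ord ha
      exact lnT_iff.2 (lt_of_lt_of_le hx h1)
    · intro a _ ha r _ hr hrq
      obtain ⟨x, rfl, hx⟩ := lnT_ord ha
      exact h2 x hx r ((mem_G0 hj hi r).1 hr) ((mem_G1 hj hi r q).1 hrq).2.2

theorem shT_iff (hP : G_PUN) {j : O} (hj : j ≤ F.κ) {p : T} (hp : p ∈ D (Iio F.κ)) :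
    ShT F.γ F.κ (.ord j) p (GG F (.ord j)) ↔
      ∀ z ∈ dec p, ∃ i < j, i < F.κ ∧ ∃ x < ln p i, z = .pr (.ord i) (.pr (.nat 0) (.ord x)) ∨
        ∃ s ∈ F.P i, z = .pr (.ord i) (.pr (.nat 1) (.pr (.ord x) s)) := by
  have hκ : F.κ ≤ F.γ := F.g.kg.le
  have h0 : 0 < F.γ := lt_of_le_of_lt zero_le F.g.kg
  have hsub : D (Iio F.κ) ⊆ D (Iio F.γ) := D_mono (Iio_subset_Iio hκ)
  unfold ShT
  constructor
  · intro h z hz
    obtain ⟨i, -, hi2, hi3, hi4, a, -, ha2, ha3⟩ := h z (dec_sub (hsub hp) hz) hz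
    cases i with
    | nat n => exact hi2.elim
    | pr a b => exact hi2.elim
    | ord i =>
      obtain ⟨x, rfl, hx⟩ := lnT_ord ha2
      refine ⟨i, hi3, hi4, x, hx, ?_⟩
      rcases ha3 with h1 | ⟨s, -, hs2, hs3⟩
      · exact Or.inl h1
      · exact Or.inr ⟨s, (mem_G0 hj hi3 s).1 hs2, hs3⟩
  · intro h z _ hz
    obtain ⟨i, hi, hiκ, x, hx, hh⟩ := h z hz
    refine ⟨.ord i, ord_mem.2 (lt_of_lt_of_le hiκ hκ), trivial, hi, hiκ, .ord x,
      ord_mem.2 (hx.trans (ln_lt h0 (hsub hp) i)), lnT_iff.2 hx, ?_⟩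
    rcases hh with h1 | ⟨s, hs, hs3⟩
    · exact Or.inl h1
    · exact Or.inr ⟨s, hsub (P_sub hP hs), (mem_G0 hj hi s).2 hs, hs3⟩

theorem leE_iff {j : O} (hj : j ≤ F.κ) {p : T} (hp : p ∈ D (Iio F.κ)) :
    LeE F.γ F.κ (gro F.κ F.η) (.ord j) p ↔ ∀ i < j, i < F.κ → ln p i < F.η i := by
  have hκ : F.κ ≤ F.γ := F.g.kg.le
  have h0 : 0 < F.γ := lt_of_le_of_lt zero_le F.g.kg
  have hsub : D (Iio F.κ) ⊆ D (Iio F.γ) := D_mono (Iio_subset_Iio hκ)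
  unfold LeE
  rw [ball_ord2 (hj.trans hκ)]
  refine forall_congr' fun i => forall_congr' fun hi => forall_congr' fun hiκ => ?_
  constructor
  · rintro ⟨y, -, a, -, hy, ⟨i', -, hia⟩, hya, hln⟩
    injection hia with h1 h2
    injection h1 with h1
    subst h1
    subst h2
    cases y with
    | nat n => exact hy.elim
    | pr a b => exact hy.elim
    | ord y =>
      rw [lnT_iff, not_lt] at hln
      exact lt_of_le_of_lt hln hya
  · intro h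
    exact ⟨.ord (ln p i), ord_mem.2 (ln_lt h0 (hsub hp) i), .ord (F.η i),
      ord_mem.2 (lt_of_lt_of_le (F.e.lt i hiκ) hκ), trivial, ⟨i, hiκ, rfl⟩, h,
      fun h3 => lt_irrefl _ (lnT_iff.1 h3)⟩

theorem roT_iff (hP : G_PUN) {j : O} (hj : j ≤ F.κ) {p : T} (hp : p ∈ D (Iio F.κ)) :
    RoT F.γ F.κ (.ord j) p (GG F (.ord j)) ↔
      ∀ i < j, i < F.κ → ∀ x < ln p i, RegO (F.P i) (F.Le i) (nm p i x) := by
  have hκ : F.κ ≤ F.γ := F.g.kg.le
  have h0 : 0 < F.γ := lt_of_le_of_lt zero_le F.g.kg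
  have hsub : D (Iio F.κ) ⊆ D (Iio F.γ) := D_mono (Iio_subset_Iio hκ)
  unfold RoT
  rw [ball_ord2 (hj.trans hκ)]
  refine forall_congr' fun i => forall_congr' fun hi => forall_congr' fun hiκ => ?_
  have hPk : ∀ {r : T}, r ∈ F.P i → r ∈ D (Iio F.γ) := fun hr => hsub (P_sub hP hr)
  have hG1 : ∀ {r s : T}, r ∈ F.P i → s ∈ F.P i →
      (Tr.pr (.ord i) (.pr (.nat 1) (.pr r s)) ∈ GG F (.ord j) ↔ F.Le i r s) := by
    intro r s hr hs
    rw [mem_G1 hj hi]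
    exact ⟨fun h => h.2.2, fun h => ⟨P_sub hP hr, P_sub hP hs, h⟩⟩
  constructor
  · intro h x hx
    obtain ⟨h1, h2, h3⟩ := h (.ord x) (ord_mem.2 (hx.trans (ln_lt h0 (hsub hp) i)))
      (lnT_iff.2 hx)
    have hN : ∀ s ∈ nm p i x, s ∈ F.P i := by
      intro s hs
      have hz := dec_sub (hsub hp) hs
      have hsk : s ∈ D (Iio F.γ) := (pr_mem.1 (pr_mem.1 (pr_mem.1 hz).2).2).2
      exact (mem_G0 hj hi s).1 (h1 s hsk hs)
    refine ⟨hN, ?_, ?_⟩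
    · intro r hr s hs hsr
      exact h2 r (hPk (hN r hr)) hr s (hPk hs) ((mem_G0 hj hi s).2 hs)
        ((hG1 hs (hN r hr)).2 hsr)
    · intro r hr h4
      refine h3 r (hPk hr) ((mem_G0 hj hi r).2 hr) ?_
      intro s _ hs2 hs3
      have hs : s ∈ F.P i := (mem_G0 hj hi s).1 hs2
      obtain ⟨u, hu, hus, hux⟩ := h4 s hs ((hG1 hs hr).1 hs3)
      exact ⟨u, hPk hu, (mem_G0 hj hi u).2 hu, (hG1 hu hs).2 hus, hux⟩
  · intro h a _ ha
    obtain ⟨x, rfl, hx⟩ := lnT_ord ha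
    obtain ⟨h1, h2, h3⟩ := h x hx
    refine ⟨?_, ?_, ?_⟩
    · intro s _ hs
      exact (mem_G0 hj hi s).2 (h1 hs)
    · intro r _ hr s _ hs hsr
      have hs' := (mem_G0 hj hi s).1 hs
      exact h2 r hr s hs' ((hG1 hs' (h1 hr)).1 hsr)
    · intro r _ hr h4
      have hr' := (mem_G0 hj hi r).1 hr
      refine h3 r hr' ?_
      intro s hs hsr
      obtain ⟨u, -, hu2, hu3, hu4⟩ := h4 s (hPk hs) ((mem_G0 hj hi s).2 hs) ((hG1 hs hr').2 hsr)
      have hu' := (mem_G0 hj hi u).1 hu2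
      exact ⟨u, hu', (hG1 hu' hs).1 hu3, hu4⟩

theorem thT_iff (hP : G_PUN) {j : O} (hj : j ≤ F.κ) {p : T} (hp : p ∈ D (Iio F.κ)) :
    ThT F.γ F.κ F.w F.M (.ord j) p (GG F (.ord j)) ↔
      ∀ i < j, i < F.κ → Thin F.M F.w (F.P i) (nm p i) (ln p i) := by
  have hκ : F.κ ≤ F.γ := F.g.kg.le
  have h0 : 0 < F.γ := lt_of_le_of_lt zero_le F.g.kg
  have hsub : D (Iio F.κ) ⊆ D (Iio F.γ) := D_mono (Iio_subset_Iio hκ)
  have hS : SOM F.γ F.M F.M := F.g.m1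
  unfold ThT
  rw [ball_ord2 (hj.trans hκ)]
  refine forall_congr' fun i => forall_congr' fun hi => forall_congr' fun hiκ => ?_
  unfold Thin
  refine not_congr ?_
  constructor
  · rintro ⟨Z, hZ, c1, c2, r, -, hr, c3⟩
    obtain ⟨d, hd, hZd⟩ := hS.bdd Z hZ
    have hZk : ∀ z ∈ Z, z ∈ D (Iio F.γ) := fun z hz => D_mono (Iio_subset_Iio hd.le) (hZd hz)
    have hex : ∀ x < F.w, ∃ y, Tr.pr (.ord x) (.ord y) ∈ Z ∧ y < ln p i ∧ r ∈ nm p i y := by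
      intro x hx
      obtain ⟨c, -, hc1, hc2, hc3⟩ := c3 (.ord x) (ord_mem.2 (hx.trans F.g.wk |>.trans F.g.kg))
        trivial hx
      obtain ⟨y, rfl, hy⟩ := lnT_ord hc2
      exact ⟨y, hc1, hy, hc3⟩
    classical
    let f : O → O := fun x => if h : x < F.w then (hex x h).choose else 0
    have hf : ∀ x < F.w, Tr.pr (.ord x) (.ord (f x)) ∈ Z ∧ f x < ln p i ∧ r ∈ nm p i (f x) := by
      intro x hx
      have : f x = (hex x hx).choose := dif_pos hx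
      rw [this]
      exact (hex x hx).choose_spec
    have huniq : ∀ {b c b' c' : T}, Tr.pr b c ∈ Z → Tr.pr b' c' ∈ Z →
        (b.llt b' → c.llt c') ∧ (b = b' → c = c') := by
      intro b c b' c' h1 h2
      have h3 := pr_mem.1 (hZk _ h1)
      have h4 := pr_mem.1 (hZk _ h2)
      exact c2 b h3.1 c h3.2 b' h4.1 c' h4.2 h1 h2
    refine ⟨f, r, ?_, ?_, (mem_G0 hj hi r).1 hr, fun x hx => (hf x hx).2⟩
    · intro x hx x' hx' hxx
      exact (huniq (hf x hx).1 (hf x' hx').1).1 hxx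
    · have hZf : gro F.w f = Z := by
        ext z
        constructor
        · rintro ⟨x, hx, rfl⟩
          exact (hf x hx).1
        · intro hz
          obtain ⟨b, -, c, -, hb, hbw, hc, rfl⟩ := c1 z (hZk z hz) hz
          cases b with
          | nat n => exact hb.elim
          | pr a b => exact hb.elim
          | ord x =>
            refine ⟨x, hbw, ?_⟩
            rw [(huniq (hf x hbw).1 hz).2 rfl]
      rw [hZf]
      exact hZ
  · rintro ⟨f, r, hmono, hgro, hr, hf⟩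
    refine ⟨gro F.w f, hgro, ?_, ?_, r, hsub (P_sub hP hr), (mem_G0 hj hi r).2 hr, ?_⟩
    · rintro z hz ⟨x, hx, rfl⟩
      exact ⟨.ord x, (pr_mem.1 hz).1, .ord (f x), (pr_mem.1 hz).2, trivial, hx, trivial, rfl⟩
    · rintro b - c - b' - c' - ⟨x, hx, h1⟩ ⟨x', hx', h2⟩
      injection h1 with h3 h4
      injection h2 with h5 h6
      subst h3 h4 h5 h6
      refine ⟨fun h => hmono hx hx' h, fun h => ?_⟩
      injection h with h
      rw [h]
    · rintro b - hb hbw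
      cases b with
      | nat n => exact hb.elim
      | pr a b => exact hb.elim
      | ord x =>
        have hx : x < F.w := hbw
        exact ⟨.ord (f x), ord_mem.2 ((hf x hx).1.trans (ln_lt h0 (hsub hp) i)), ⟨x, hx, rfl⟩,
          lnT_iff.2 (hf x hx).1, (hf x hx).2⟩

theorem step_iff (hP : G_PUN) (x : T) (y : T) : y ∈ FF F x ↔ y ∈ D (Iio F.γ) ∧
    Phi F.γ F.κ F.w F.M (gro F.κ F.η) (D (Iio F.κ)) x y (GG F x) := by
  have hκ : F.κ ≤ F.γ := F.g.kg.le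
  have hsub : D (Iio F.κ) ⊆ D (Iio F.γ) := D_mono (Iio_subset_Iio hκ)
  constructor
  · rintro ⟨j, hj, rfl, ⟨p, hp, rfl⟩ | ⟨q, hq, p, hp, hL, rfl⟩⟩
    · have hpκ := P_sub hP hp
      have hc := ((hP F).2 j p).1 hp
      exact ⟨pr_mem.2 ⟨nat_mem _ _, hsub hpκ⟩, trivial, not_lt.2 hj, Or.inl ⟨p, hsub hpκ, rfl,
        hc.canon, hpκ, (shT_iff hP hj hpκ).2 hc.shape, (leE_iff hj hpκ).2 hc.len,
        (roT_iff hP hj hpκ).2 hc.ro, (thT_iff hP hj hpκ).2 hc.thin⟩⟩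
    · exact ⟨pr_mem.2 ⟨nat_mem _ _, pr_mem.2 ⟨hsub hq, hsub hp⟩⟩, trivial, not_lt.2 hj,
        Or.inr ⟨q, hsub hq, p, hsub hp, rfl, hq, hp,
          (leT_iff hP hj hq hp).2 (((hP F).1 j q p).1 hL)⟩⟩
  · rintro ⟨-, hx, hxκ, hh⟩
    cases x with
    | nat n => exact hx.elim
    | pr a b => exact hx.elim
    | ord j =>
      have hj : j ≤ F.κ := not_lt.1 hxκ
      rcases hh with ⟨p, -, rfl, c1, c2, c3, c4, c5, c6⟩ | ⟨q, -, p, -, rfl, hq, hp, hL⟩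
      · refine ⟨j, hj, rfl, Or.inl ⟨p, ((hP F).2 j p).2 ⟨c1, c2, (shT_iff hP hj c2).1 c3,
          (leE_iff hj c2).1 c4, (roT_iff hP hj c2).1 c5, (thT_iff hP hj c2).1 c6⟩, rfl⟩⟩
      · exact ⟨j, hj, rfl, Or.inr ⟨q, hq, p, hp,
          ((hP F).1 j q p).2 ((leT_iff hP hj hq hp).1 hL), rfl⟩⟩

end main

theorem thm (hR : G_REC) (hP : G_PUN) (hC : G_CNC) (hL : G_LNS) (hD : G_DEC) : G_PIM := by
  intro F
  have hkg : F.κ < F.γ := F.g.kg
  have hκ : F.κ ≤ F.γ := F.g.kg.le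
  have h0 : 0 < F.γ := lt_of_le_of_lt zero_le F.g.kg
  have hsub : D (Iio F.κ) ⊆ D (Iio F.γ) := D_mono (Iio_subset_Iio hκ)
  have hS : SOM F.γ F.M F.M := F.g.m1
  have hDκ : D (Iio F.κ) ∈ F.M := by
    have h := SOM.sep (k := F.γ) (S := F.M) (S' := F.M) (P := fun _ => True) SD.const hkg
    convert h using 1
    ext x
    simp
  have hPhi := sd_Phi (k := F.γ) (M := F.M) hkg (F.g.wk.trans F.g.kg) F.e.gr hDκ
    (hL F.γ F.M F.M hS) (hD F.γ F.M F.M hS).1 (hC.2.2.2.2.2.2 F.γ F.M F.M hS).1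
  have hprd : SD F.γ F.M F.M (fun e _ => e.fst ∈ prd F e.snd) := by
    have h1 : SD F.γ F.M F.M (fun e _ => e.fst.IsOrd ∧ e.snd.IsOrd ∧ e.fst.llt e.snd ∧
        ¬ (Tr.ord F.κ).llt e.snd) := by
      apply_rules (maxDepth := 3000) [SD.exT, SD.allT, SD.exS, SD.allS, SD.isOrd, SD.llt, SD.mem,
        SD.eq, SD.not, SD.and, SD.or, SD.iff, SD.imp, ST.id, ST.fst, ST.snd, ST.pr, ST.nat,
        ST.ordc, SV.var, SV.par]
    refine h1.congr fun e _ _ _ => ?_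
    constructor
    · rintro ⟨h1, h2, h3, h4⟩
      cases h5 : e.fst with
      | nat n => rw [h5] at h1; exact h1.elim
      | pr a b => rw [h5] at h1; exact h1.elim
      | ord i =>
        cases h6 : e.snd with
        | nat n => rw [h6] at h2; exact h2.elim
        | pr a b => rw [h6] at h2; exact h2.elim
        | ord j =>
          rw [h5, h6] at h3
          rw [h6] at h4
          exact ⟨i, j, h3, not_lt.1 h4, rfl, rfl⟩
    · rintro ⟨i, j, hij, hj, h5, h6⟩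
      rw [h5, h6]
      exact ⟨trivial, trivial, hij, not_lt.2 hj⟩
  have hwf : WellFounded fun y x => y ∈ prd F x := by
    refine Subrelation.wf (r := InvImage (· < ·) lev) ?_ (InvImage.wf lev wellFounded_lt)
    rintro y x ⟨i, j, hij, -, rfl, rfl⟩
    exact hij
  obtain ⟨r1, -⟩ := hR F.γ F.M F.M hS (prd F) (FF F) _ hprd hPhi hwf
    ⟨0, h0, fun d _ _ x hx y hy => by
      obtain ⟨i, j, hij, -, rfl, rfl⟩ := hy
      exact ord_mem.2 (hij.trans (ord_mem.1 hx))⟩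
    (fun x _ y => step_iff hP x y)
    (fun d _ => ⟨F.κ, hkg, fun x _ y hy => by
      obtain ⟨j, -, -, ⟨p, hp, rfl⟩ | ⟨q, hq, p, hp, -, rfl⟩⟩ := hy
      · exact pr_mem.2 ⟨nat_mem _ _, P_sub hP hp⟩
      · exact pr_mem.2 ⟨nat_mem _ _, pr_mem.2 ⟨hq, hp⟩⟩⟩)
  have hmem0 : ∀ x p : T, Tr.pr (.nat 0) p ∈ FF F x ↔ ∃ j ≤ F.κ, x = .ord j ∧ p ∈ F.P j := by
    intro x p
    constructor
    · rintro ⟨j, hj, hx, ⟨p', hp', h⟩ | ⟨q, -, p', -, -, h⟩⟩
      · injection h with _ h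
        rw [h]
        exact ⟨j, hj, hx, hp'⟩
      · injection h with h _
        injection h with h
        exact absurd h (by norm_num)
    · rintro ⟨j, hj, hx, hp⟩
      exact ⟨j, hj, hx, Or.inl ⟨p, hp, rfl⟩⟩
  have hmem1 : ∀ x q p : T, Tr.pr (.nat 1) (.pr q p) ∈ FF F x ↔
      ∃ j ≤ F.κ, x = .ord j ∧ q ∈ D (Iio F.κ) ∧ p ∈ D (Iio F.κ) ∧ F.Le j q p := by
    intro x q p
    constructor
    · rintro ⟨j, hj, hx, ⟨p', hp', h⟩ | ⟨q', hq', p', hp', hL', h⟩⟩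
      · injection h with h _
        injection h with h
        exact absurd h (by norm_num)
      · injection h with _ h
        injection h with h h'
        rw [h, h']
        exact ⟨j, hj, hx, hq', hp', hL'⟩
    · rintro ⟨j, hj, hx, hq, hp, hL⟩
      exact ⟨j, hj, hx, Or.inr ⟨q, hq, p, hp, hL, rfl⟩⟩
  refine ⟨?_, ?_, ?_⟩
  · have h1 := SD.sub (t := fun e => Tr.pr e.fst (.pr (.nat 0) e.snd)) r1
      (ST.id.fst.pr ((ST.nat 0).pr ST.id.snd))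
    exact h1.congr fun e _ _ _ => hmem0 e.fst e.snd
  · have h1 := SD.sub (t := fun e => Tr.pr e.fst (.pr (.nat 1) (.pr e.snd.fst e.snd.snd))) r1
      (ST.id.fst.pr ((ST.nat 1).pr (ST.id.snd.fst.pr ST.id.snd.snd)))
    exact h1.congr fun e _ _ _ => hmem1 e.fst e.snd.fst e.snd.snd
  · intro j hj
    have h1 := SD.sub (t := fun e => Tr.pr (.ord j) (.pr (.nat 0) e)) r1
      ((ST.ordc (lt_of_le_of_lt hj hkg)).pr ((ST.nat 0).pr ST.id))
    refine SOM.of_SD (S := F.M) (d := F.κ) hkg (fun p hp => P_sub hP hp)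
      (h1.congr fun e _ _ _ => ?_)
    refine (hmem0 (.ord j) e).trans ?_
    constructor
    · rintro ⟨j', -, h, hp⟩
      injection h with h
      rw [h]
      exact hp
    · intro hp
      exact ⟨j, hj, rfl, hp⟩

end Pool.Agent.Helper17.OD.PkPIM
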